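import Pool.Agent.H14.TA.Stmts

/-!
# Project ART, module D3V: counting strict `V`-walls
-/

namespace TA

namespace D3V

/-- the family of `V`-walls of a letter -/
def vf (x : Bool) : LFam := if x then LFam.Vb else LFam.Va

theorem vf_ne (x : Bool) : vf x ≠ LFam.Ha := by cases x <;> decide

@[simp] theorem vf_letter (x : Bool) : (vf x).letter = x := by cases x <;> rfl

theorem vf_inj {x y : Bool} (h : vf x = vf y) : x = y := by
  cases x <;> cases y <;> first | rfl | exact absurd h (by decide)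

theorem vf_of_letter {f : LFam} (hf : f ≠ LFam.Ha) : vf f.letter = f := by
  cases f <;> first | rfl | exact absurd rfl hf

/-- the base of the step of a syllable with exponent `±1` -/
def base {Γ : Type*} [Group Γ] (γ : Bool → Γ) (g : Γ) (s : Bool × ℤ) : Γ :=
  g * γ s.1 ^ (if s.2 = 1 then 0 else -1 : ℤ)

theorem cr_iff {Γ : Type*} [Group Γ] {γ : Bool → Γ} {x : Bool} {B : Subgroup Γ} {t g : Γ}
    {s : Bool × ℤ} (hs : s.2 = 1 ∨ s.2 = -1) (hx : s.1 = x) :
    Cr γ x B t g s ↔ t⁻¹ * base γ g s ∈ B := by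
  subst hx
  unfold Cr base
  rcases hs with hs | hs
  · rw [hs]
    simp only [mem_step_one, true_and, exists_eq_left, if_true]
    rw [mul_assoc]
  · rw [hs]
    simp only [mem_step_neg_one, true_and, exists_eq_left]
    rw [if_neg (by norm_num), mul_assoc]

theorem base_self {Γ : Type*} [Group Γ] {γ : Bool → Γ} {B : Subgroup Γ} {g : Γ} {s : Bool × ℤ}
    (hs : s.2 = 1 ∨ s.2 = -1) : Cr γ s.1 B (base γ g s) g s := by
  rw [cr_iff hs rfl, inv_mul_cancel]
  exact B.one_mem

/-- the side of powers of the product of the two letters -/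
theorem side_pow {Γ : Type*} [Group Γ] {γ : Bool → Γ} {x : Bool} {B : Subgroup Γ}
    {s : Γ → Γ → ZMod 2} (h : IsSide γ x B s) (t : Γ) (n : ℕ) :
    s t ((γ x * γ (!x)) ^ n) = ∑ j ∈ Finset.range n, s (((γ x * γ (!x)) ^ j)⁻¹ * t) (γ x) := by
  induction n with
  | zero => simpa using h.one t
  | succ n ih =>
    rw [pow_succ, h.mul, ih, Finset.sum_range_succ, h.mul _ (γ x), h.other _ (!x) (by simp),
      add_zero]

theorem side_two {Γ : Type*} [Group Γ] {γ : Bool → Γ} {x : Bool} {B : Subgroup Γ}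
    {s : Γ → Γ → ZMod 2} (h : IsSide γ x B s) (κ : ℕ) (hB : (γ x * γ (!x)) ^ κ ∈ B) (t : Γ) :
    s t ((γ x * γ (!x)) ^ (2 * κ)) = 0 := by
  classical
  rw [two_mul, pow_add, h.mul, side_pow h, side_pow h]
  have e : ∀ j ∈ Finset.range κ,
      s (((γ x * γ (!x)) ^ j)⁻¹ * (((γ x * γ (!x)) ^ κ)⁻¹ * t)) (γ x) =
      s (((γ x * γ (!x)) ^ j)⁻¹ * t) (γ x) := by
    intro j _
    rw [h.self, h.self]
    set g := γ x * γ (!x)
    have e1 : (g ^ j)⁻¹ * ((g ^ κ)⁻¹ * t) = (g ^ κ)⁻¹ * ((g ^ j)⁻¹ * t) := by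
      rw [← mul_assoc, ← mul_assoc, ← mul_inv_rev, ← mul_inv_rev, ← pow_add, ← pow_add, add_comm]
    rw [e1, B.mul_mem_cancel_left (B.inv_mem hB)]
  rw [Finset.sum_congr rfl e]
  exact CharTwo.add_self_eq_zero _

theorem zz_eq (κ : ℕ) (x : Bool) : zz κ = (dgen κ x * dgen κ (!x)) ^ (2 * κ) := by
  unfold zz
  cases x
  · rfl
  · exact dgen_rel κ false true

theorem B_vf (κ : ℕ) (x : Bool) :
    (vf x).B κ = Subgroup.zpowers ((dgen κ x * dgen κ (!x)) ^ κ) := by
  cases x <;> rfl

theorem zz_mem (κ : ℕ) (x : Bool) : zz κ ∈ (vf x).B κ := by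
  rw [B_vf, zz_eq κ x, mul_comm 2 κ, pow_mul]
  exact Subgroup.pow_mem _ (Subgroup.mem_zpowers _) _

theorem side_zz {κ : ℕ} {x : Bool} {s : D κ → D κ → ZMod 2}
    (h : IsSide (dgen κ) x ((vf x).B κ) s) (c : ℤ) (t : D κ) : s t (zz κ ^ c) = 0 := by
  have h1 : ∀ t, s t (zz κ) = 0 := by
    intro t
    rw [zz_eq κ x]
    refine side_two h κ ?_ t
    rw [B_vf]
    exact Subgroup.mem_zpowers _
  have h2 : ∀ (n : ℕ) t, s t (zz κ ^ n) = 0 := by
    intro n
    induction n with
    | zero => intro t; simpa using h.one t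
    | succ n ih => intro t; rw [pow_succ, h.mul, ih, h1, add_zero]
  cases c with
  | ofNat n => simpa using h2 n t
  | negSucc n => rw [zpow_negSucc, h.inv]; exact h2 _ _

theorem zz_comm_gen (κ : ℕ) (x : Bool) : dgen κ x * zz κ = zz κ * dgen κ x := by
  have h1 : zz κ = (dgen κ x * dgen κ (!x)) ^ (2 * κ) := zz_eq κ x
  have h2 : zz κ = (dgen κ (!x) * dgen κ x) ^ (2 * κ) := by
    rw [h1]; exact dgen_rel κ _ _
  calc dgen κ x * zz κ = dgen κ x * (dgen κ (!x) * dgen κ x) ^ (2 * κ) := by rw [← h2]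
    _ = (dgen κ x * dgen κ (!x)) ^ (2 * κ) * dgen κ x := by
      rw [← mul_pow_mul]
    _ = zz κ * dgen κ x := by rw [← h1]

theorem zz_comm (κ : ℕ) (g : D κ) : g * zz κ = zz κ * g := by
  have hg : g ∈ Subgroup.closure (Set.range (dgen κ)) := by rw [D_closure]; trivial
  induction hg using Subgroup.closure_induction with
  | mem g hg => obtain ⟨x, rfl⟩ := hg; exact zz_comm_gen κ x
  | one => simp
  | mul g k _ _ hg hk => rw [mul_assoc, hk, ← mul_assoc, hg, mul_assoc]
  | inv g _ hg => rw [inv_mul_eq_iff_eq_mul, ← mul_assoc, hg, mul_inv_cancel_right]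

theorem zzc_comm (κ : ℕ) (g : D κ) (c : ℤ) : g * zz κ ^ c = zz κ ^ c * g :=
  (Commute.zpow_right (show Commute g (zz κ) from zz_comm κ g) c).eq

theorem pow_not_mem {κ : ℕ} {x : Bool} {n : ℤ} (h : dgen κ x ^ n ∈ (vf x).B κ) : n = 0 := by
  rw [B_vf, Subgroup.mem_zpowers_iff] at h
  obtain ⟨m, hm⟩ := h
  have h1 := congrArg (dsum κ (fun y => if y = x then 1 else -1)) hm
  have h2 : dsum κ (fun y => if y = x then 1 else -1) (dgen κ x) = Multiplicative.ofAdd 1 := by
    simp [dsum]
  have h3 : dsum κ (fun y => if y = x then 1 else -1) (dgen κ (!x)) =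
      Multiplicative.ofAdd (-1) := by
    simp [dsum]
  rw [map_zpow, map_pow, map_mul, h2, h3, map_zpow, h2, ← ofAdd_add, ← ofAdd_nsmul, ← ofAdd_zsmul,
    ← ofAdd_zsmul] at h1
  simpa using h1.symm

theorem lett_linv {w : List (Bool × ℤ)} (h : Lett w) : Lett (linv w) := by
  intro s hs
  have := h _ (mem_linv.1 hs)
  simp only at this
  omega

theorem zshort_linv {κ : ℕ} {w : List (Bool × ℤ)} (h : ZShort κ w) : ZShort κ (linv w) := by
  refine ⟨lett_linv h.1, ?_⟩
  rintro w' hw' ⟨c, hc⟩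
  have := h.2 (linv w') (lett_linv hw') ⟨-c, by
    rw [ev_linv, hc, ev_linv, mul_inv_rev, inv_inv, ← zpow_neg, zzc_comm]⟩
  simpa using this

theorem dec {w : List (Bool × ℤ)} {j : ℕ} (hj : j < w.length) :
    w = w.take j ++ w.getD j (false, 0) :: w.drop (j + 1) := by
  rw [List.getD_eq_getElem _ _ hj, ← List.drop_eq_getElem_cons hj, List.take_append_drop]

theorem card_le_one_of {S : Finset ℕ} (h : ∀ a ∈ S, ∀ b ∈ S, a = b) : S.card ≤ 1 :=
  Finset.card_le_one.2 h

end D3V

open D3V in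
/-- D3V -/
theorem d3v_of (hF1 : S_F1) (hF2 : S_F2) : S_D3V := by
  classical
  intro κ hκ σ hσ w0 w1 w2 hZ h0 h2 h0' h01 h2' h21 c
  set w := w0 ++ w1 ++ w2 with hw
  set α := ev (dgen κ) w * zz κ ^ c with hα
  have hL : ∀ s ∈ w1, s.2 = 1 ∨ s.2 = -1 := fun s hs => hZ.1 s (by simp [hw, hs])
  let sj : ℕ → Bool × ℤ := fun j => w1.getD j (false, 0)
  let pj : ℕ → List (Bool × ℤ) := fun j => w0 ++ w1.take j
  let bj : ℕ → D κ := fun j => base (dgen κ) (ev (dgen κ) (pj j)) (sj j)
  have hmem : ∀ j < w1.length, sj j ∈ w1 := by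
    intro j hj
    simp only [sj]
    rw [List.getD_eq_getElem _ _ hj]
    exact List.getElem_mem hj
  have hsj : ∀ j < w1.length, (sj j).2 = 1 ∨ (sj j).2 = -1 := fun j hj => hL _ (hmem j hj)
  have hdec : ∀ j < w1.length, w = pj j ++ sj j :: (w1.drop (j + 1) ++ w2) := by
    intro j hj
    rw [hw]
    conv_lhs => rw [dec hj]
    simp [pj, sj]
  have hlen : ∀ j < w1.length, (pj j).length = w0.length + j := by
    intro j hj
    simp only [pj, List.length_append, List.length_take]
    omega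
  have A : ∀ j < w1.length, ∀ j' < w1.length, (sj j).1 = (sj j').1 →
      (bj j)⁻¹ * bj j' ∈ (vf (sj j).1).B κ → j = j' := by
    intro j hj j' hj' hx hb
    have := hF1 κ hκ (vf (sj j).1) (vf_ne _) w hZ (bj j) _ _ _ _ _ _ (hdec j hj) (hdec j' hj')
      (by rw [vf_letter]; exact base_self (hsj j hj))
      (by rw [vf_letter]; exact (cr_iff (hsj j' hj') hx.symm).2 hb)
    rw [hlen j hj, hlen j' hj'] at this
    omega
  have B : ∀ j < w1.length, σ (vf (sj j).1) (bj j) α = 1 := by
    intro j hj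
    have hs := hσ (vf (sj j).1)
    rw [vf_letter] at hs
    rw [hα, hs.mul, side_zz hs, add_zero]
    refine hs.eq_one_of_unique (fun n hn => pow_not_mem hn) _ _ _ _ _ (hdec j hj)
      (base_self (hsj j hj)) ?_
    intro m1 v m2 hm hc
    exact hF1 κ hκ (vf (sj j).1) (vf_ne _) w hZ (bj j) _ _ _ _ _ _ hm (hdec j hj)
      (by rw [vf_letter]; exact hc) (by rw [vf_letter]; exact base_self (hsj j hj))
  let bad1 : ℕ → Prop := fun j => ∃ n : ℤ, (bj j)⁻¹ * dgen κ (sj j).1 ^ n ∈ (vf (sj j).1).B κ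
  let bad2 : ℕ → Prop := fun j => ∃ n : ℤ, (bj j)⁻¹ * α * dgen κ (sj j).1 ^ n ∈
    (vf (sj j).1).B κ
  have C1 : ∀ j < w1.length, ∀ j' < w1.length, (sj j).1 = (sj j').1 → bad1 j → bad1 j' →
      j = j' := by
    intro j hj j' hj' hx hb hb'
    have e : ∀ i < w1.length, w1 ++ w2 = w1.take i ++ sj i :: (w1.drop (i + 1) ++ w2) := by
      intro i hi
      conv_lhs => rw [dec hi]
      simp [sj]
    have := hF2 κ hκ (vf (sj j).1) (vf_ne _) w0 (w1 ++ w2) (by
        rw [← List.append_assoc]; exact hZ) h0 h0' h01 (bj j) _ _ _ (bj j') _ _ _ (e j hj) (e j' hj')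
      (by rw [vf_letter]; exact base_self (hsj j hj))
      (by rw [vf_letter, hx]; exact base_self (hsj j' hj'))
      (by rw [vf_letter]; exact hb) (by rw [vf_letter, hx]; exact hb')
    simp only [List.length_take] at this
    omega
  have C2 : ∀ j < w1.length, ∀ j' < w1.length, (sj j).1 = (sj j').1 → bad2 j → bad2 j' →
      j = j' := by
    intro j hj j' hj' hx hb hb'
    have e : ∀ i < w1.length, linv (w0 ++ w1) = linv (w1.drop (i + 1)) ++
        ((sj i).1, -(sj i).2) :: (linv (w1.take i) ++ linv w0) := by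
      intro i hi
      conv_lhs => rw [dec hi]
      simp [sj, linv]
    -- the walls seen from the other end
    have cr : ∀ i < w1.length, Cr (dgen κ) (sj i).1 ((vf (sj i).1).B κ)
        ((ev (dgen κ) w)⁻¹ * bj i) (ev (dgen κ) (linv w2 ++ linv (w1.drop (i + 1))))
        ((sj i).1, -(sj i).2) := by
      intro i hi
      have h1 : ((sj i).1, -(sj i).2).2 = 1 ∨ ((sj i).1, -(sj i).2).2 = -1 := by
        have := hsj i hi
        simp only
        omega
      rw [cr_iff h1 rfl]
      have h2 : ev (dgen κ) w = ev (dgen κ) (pj i) * dgen κ (sj i).1 ^ (sj i).2 *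
          ev (dgen κ) (w1.drop (i + 1) ++ w2) := by
        conv_lhs => rw [hdec i hi]
        simp [mul_assoc]
      have h3 : ((ev (dgen κ) w)⁻¹ * bj i)⁻¹ * base (dgen κ)
          (ev (dgen κ) (linv w2 ++ linv (w1.drop (i + 1)))) ((sj i).1, -(sj i).2) = 1 := by
        rw [h2, ← linv_append, ev_linv]
        simp only [bj, base]
        rcases hsj i hi with hh | hh
        · rw [hh]
          simp only [if_true]
          rw [if_neg (by norm_num)]
          group
        · rw [hh]
          rw [if_neg (by norm_num), if_pos (by norm_num)]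
          group
      rw [h3]
      exact Subgroup.one_mem _
    have ln : ∀ i < w1.length, bad2 i → ∃ n : ℤ, ((ev (dgen κ) w)⁻¹ * bj i)⁻¹ *
        dgen κ (sj i).1 ^ n ∈ (vf (sj i).1).B κ := by
      rintro i hi ⟨n, hn⟩
      refine ⟨n, ?_⟩
      have h1 : (bj i)⁻¹ * α * dgen κ (sj i).1 ^ n =
          ((ev (dgen κ) w)⁻¹ * bj i)⁻¹ * dgen κ (sj i).1 ^ n * zz κ ^ c := by
        rw [hα, mul_inv_rev, inv_inv, mul_assoc, mul_assoc (ev (dgen κ) w), ← zzc_comm]
        simp only [mul_assoc]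
      rw [h1] at hn
      exact (Subgroup.mul_mem_cancel_right _ (Subgroup.zpow_mem _ (zz_mem κ _) c)).1 hn
    have := hF2 κ hκ (vf (sj j).1) (vf_ne _) (linv w2) (linv (w0 ++ w1)) (by
        rw [← linv_append]
        exact zshort_linv hZ)
      (by
        intro h
        apply h2
        have := congrArg List.length h
        simp at this
        exact this)
      (by
        intro s hs s' hs'
        exact h2' _ (mem_linv.1 hs) (s'.1, -s'.2) (mem_linv.1 hs'))
      (by
        intro s hs s' hs'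
        have h3 : (s'.1, -s'.2) ∈ (w0 ++ w1).getLast? := by
          simp only [linv, List.head?_reverse, List.getLast?_map] at hs'
          rw [Option.mem_def, Option.map_eq_some_iff] at hs'
          obtain ⟨a, ha, rfl⟩ := hs'
          simpa using ha
        exact h21 _ (mem_linv.1 hs) (s'.1, -s'.2) h3)
      ((ev (dgen κ) w)⁻¹ * bj j) _ _ _ ((ev (dgen κ) w)⁻¹ * bj j') _ _ _ (e j hj) (e j' hj')
      (by rw [vf_letter]; exact cr j hj) (by rw [vf_letter, hx]; exact cr j' hj')
      (by rw [vf_letter]; exact ln j hj hb) (by rw [vf_letter, hx]; exact ln j' hj' hb')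
    simp only [length_linv, List.length_drop] at this
    omega
  let J := Finset.range w1.length
  let Wl : ℕ → LFam × D κ := fun j => (vf (sj j).1, bj j)
  let J' := J.filter (fun j => ¬ bad1 j ∧ ¬ bad2 j)
  have inj : ∀ j < w1.length, ∀ j' < w1.length, Wl j = Wl j' → j = j' := by
    intro j hj j' hj' h
    have h1 := vf_inj (congrArg Prod.fst h)
    have h2 : bj j = bj j' := congrArg Prod.snd h
    refine A j hj j' hj' h1 ?_
    rw [h2, inv_mul_cancel]
    exact Subgroup.one_mem _
  refine ⟨J'.image Wl, ?_, ?_, ?_⟩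
  · intro p hp q hq h1 h2
    obtain ⟨j, hj, rfl⟩ := Finset.mem_image.1 hp
    obtain ⟨j', hj', rfl⟩ := Finset.mem_image.1 hq
    have hj := Finset.mem_range.1 (Finset.mem_filter.1 hj).1
    have hj' := Finset.mem_range.1 (Finset.mem_filter.1 hj').1
    rw [A j hj j' hj' (vf_inj h1) h2]
  · intro p hp
    obtain ⟨j, hj, rfl⟩ := Finset.mem_image.1 hp
    obtain ⟨hj, h3, h4⟩ := Finset.mem_filter.1 hj
    have hj := Finset.mem_range.1 hj
    refine ⟨B j hj, ?_, ?_⟩
    · intro n hn
      simp only [Wl, vf_letter] at hn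
      exact h3 ⟨n, hn⟩
    · intro n hn
      simp only [Wl, vf_letter] at hn
      exact h4 ⟨n, hn⟩
  · rw [Finset.card_image_of_injOn (fun j hj j' hj' h => inj j
      (Finset.mem_range.1 (Finset.mem_filter.1 hj).1) j'
      (Finset.mem_range.1 (Finset.mem_filter.1 hj').1) h)]
    have hsub : J ⊆ J' ∪ (J.filter (fun j => (sj j).1 = false ∧ bad1 j) ∪
        J.filter (fun j => (sj j).1 = true ∧ bad1 j) ∪
        J.filter (fun j => (sj j).1 = false ∧ bad2 j) ∪
        J.filter (fun j => (sj j).1 = true ∧ bad2 j)) := by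
      intro j hj
      simp only [J', Finset.mem_union, Finset.mem_filter]
      by_cases b1 : bad1 j <;> by_cases b2 : bad2 j <;> cases hx : (sj j).1 <;> simp [hj, b1, b2]
    have c1 : ∀ x, (J.filter (fun j => (sj j).1 = x ∧ bad1 j)).card ≤ 1 := by
      intro x
      refine card_le_one_of fun a ha b hb => ?_
      obtain ⟨ha, hax, ha'⟩ := Finset.mem_filter.1 ha
      obtain ⟨hb, hbx, hb'⟩ := Finset.mem_filter.1 hb
      exact C1 a (Finset.mem_range.1 ha) b (Finset.mem_range.1 hb) (hax.trans hbx.symm) ha' hb'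
    have c2 : ∀ x, (J.filter (fun j => (sj j).1 = x ∧ bad2 j)).card ≤ 1 := by
      intro x
      refine card_le_one_of fun a ha b hb => ?_
      obtain ⟨ha, hax, ha'⟩ := Finset.mem_filter.1 ha
      obtain ⟨hb, hbx, hb'⟩ := Finset.mem_filter.1 hb
      exact C2 a (Finset.mem_range.1 ha) b (Finset.mem_range.1 hb) (hax.trans hbx.symm) ha' hb'
    have h1 := Finset.card_le_card hsub
    have h2 := Finset.card_union_le J' (J.filter (fun j => (sj j).1 = false ∧ bad1 j) ∪
        J.filter (fun j => (sj j).1 = true ∧ bad1 j) ∪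
        J.filter (fun j => (sj j).1 = false ∧ bad2 j) ∪
        J.filter (fun j => (sj j).1 = true ∧ bad2 j))
    have h3 := Finset.card_union_le (J.filter (fun j => (sj j).1 = false ∧ bad1 j) ∪
        J.filter (fun j => (sj j).1 = true ∧ bad1 j) ∪
        J.filter (fun j => (sj j).1 = false ∧ bad2 j))
        (J.filter (fun j => (sj j).1 = true ∧ bad2 j))
    have h4 := Finset.card_union_le (J.filter (fun j => (sj j).1 = false ∧ bad1 j) ∪
        J.filter (fun j => (sj j).1 = true ∧ bad1 j))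
        (J.filter (fun j => (sj j).1 = false ∧ bad2 j))
    have h5 := Finset.card_union_le (J.filter (fun j => (sj j).1 = false ∧ bad1 j))
        (J.filter (fun j => (sj j).1 = true ∧ bad1 j))
    have := c1 false
    have := c1 true
    have := c2 false
    have := c2 true
    have h6 : J.card = w1.length := Finset.card_range _
    change w1.length ≤ J'.card + 4
    omega

end TA
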